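import Pool.Agent.H61.RL.Fld

set_option autoImplicit false

/-!
# The involutions of a 2-group with a regular locally cyclic group of automorphisms transitive on them

Let `G` be a 2-group and `A` a periodic locally cyclic group of automorphisms of `G` which acts regularly (no
nonidentity element of `A` fixes a nonidentity element of `G`) and transitively on the involutions. Then the
involutions of `G` commute; with `1` they form a subgroup `V`, and there is a field `F` of characteristic two,
algebraic over its prime field, such that `V` is the additive and `A` the multiplicative group of `F`, the action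
being the multiplication. If there are only finitely many involutions, they are central.

Proof of the first assertion. Write `S` for the set of the `δ ∈ A` such that `x` and `δ x` commute for all `x` of
square `1`; by transitivity and commutativity one involution `x` is enough. Let `δ, γ ∈ S`, `a` an involution,
`b = δ a`, `c = γ a`, `d = δ γ a`. The products `ab` and `cd = γ (ab)` commute, `ac` and `bd` as well, so
`(bc)² = (cb)² = (ad)² =: z` (`square_lemma`), `z² = 1` and `z` commutes with `c`. Now let `x, y` be involutions
which do not commute, and `w` the involution in `⟨xy⟩`, which commutes with both. Let `w = δ x`, `y = γ w`; then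
`δ, γ ∈ S`, and with `a = x`, `b = w`, `d = y` we get `(xy)⁴ = 1`, `w = (xy)² = z`, which commutes with `c`; so
`z = (wc)² = w² c² = 1`, a contradiction.
-/

namespace Pool.Agent.Results.MP_5bec91_al.CommutingInvolutions

open Function Pool.Agent.H61.RL

theorem result (G : Type) [Group G] (h2 : ∀ g : G, ∃ n : ℕ, g ^ (2 ^ n) = 1)
    (A : Subgroup (MulAut G)) (hper : ∀ a ∈ A, IsOfFinOrder a)
    (hlc : ∀ H : Subgroup (MulAut G), H ≤ A → H.FG → IsCyclic H)
    (hreg : ∀ a ∈ A, a ≠ 1 → ∀ g : G, g ≠ 1 → a g ≠ g)
    (htr : ∀ x y : G, orderOf x = 2 → orderOf y = 2 → ∃ a ∈ A, a x = y) :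
    (∀ x y : G, orderOf x = 2 → orderOf y = 2 → x * y = y * x) ∧
    ((∃ x : G, orderOf x = 2) →
      ∃ (F : Type) (_ : Field F) (e : F → G) (m : Fˣ ≃* A),
        CharP F 2 ∧ (∀ u : Fˣ, IsOfFinOrder u) ∧
        Injective e ∧ (∀ x y : F, e (x + y) = e x * e y) ∧
        (∀ g : G, g * g = 1 ↔ ∃ x : F, e x = g) ∧
        ∀ (u : Fˣ) (x : F), e (u * x) = (m u : MulAut G) (e x)) ∧
    ({x : G | orderOf x = 2}.Finite → ∀ x : G, orderOf x = 2 → x ∈ Subgroup.center G) := by
  have hcomm : ∀ a ∈ A, ∀ b ∈ A, a * b = b * a := by
    intro a ha b hb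
    have hle : Subgroup.closure {a, b} ≤ A := by
      rw [Subgroup.closure_le]
      rintro x (rfl | rfl)
      · exact ha
      · exact hb
    have hfg : (Subgroup.closure {a, b}).FG :=
      (Subgroup.fg_iff _).2 ⟨{a, b}, rfl, Set.toFinite _⟩
    have hc := hlc _ hle hfg
    have hcm : IsMulCommutative (Subgroup.closure {a, b}) := inferInstance
    have h := hcm.is_comm.comm (⟨a, Subgroup.subset_closure (by simp)⟩ : Subgroup.closure {a, b})
      ⟨b, Subgroup.subset_closure (by simp)⟩
    exact congrArg Subtype.val h
  have h : Setting G A := ⟨hcomm, htr, fun x y _ _ => h2 (x * y), hreg⟩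
  refine ⟨fun x y hx hy => h.commute (sq_one hx) (sq_one hy), ?_, ?_⟩
  · rintro ⟨x0, hx0⟩
    let i : h.FF := Additive.ofMul ⟨x0, sq_one hx0⟩
    have hi : i ≠ 0 := by
      intro h0
      have : x0 = 1 := congrArg (fun z : h.FF => (z.toMul : G)) h0
      rw [this, orderOf_one] at hx0
      exact absurd hx0 (by norm_num)
    let _ : Field h.FF := h.fld i hi
    have hmul : ∀ x y : h.FF, x * y = h.mul i hi x y := fun _ _ => rfl
    have hone : (1 : h.FF) = i := rfl
    let e : h.FF → G := fun x => (x.toMul : G)
    have hu : ∀ u : h.FFˣ, (u : h.FF) ≠ 0 := fun u => u.ne_zero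
    let m0 : h.FFˣ →* A :=
      { toFun := fun u => ⟨h.el i u hi, h.el_mem i u hi⟩
        map_one' := by
          apply Subtype.ext
          refine h.eq_of_act hi (h.el_mem i _ hi) A.one_mem ?_
          rw [h.el_act i _ hi (hu 1), Subgroup.coe_one, h.act_one]
          rfl
        map_mul' := fun u v => by
          apply Subtype.ext
          refine h.eq_of_act hi (h.el_mem i _ hi) (A.mul_mem (h.el_mem i _ hi) (h.el_mem i _ hi)) ?_
          rw [h.el_act i _ hi (hu _), Subgroup.coe_mul, h.act_mul, h.el_act i _ hi (hu _)]
          change h.mul i hi (u : h.FF) (v : h.FF) = _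
          unfold Setting.mul
          rw [if_neg (hu u)] }
    have hm0 : ∀ u : h.FFˣ, h.act (m0 u : MulAut G) i = (u : h.FF) := fun u =>
      h.el_act i _ hi (hu u)
    have hbij : Bijective m0 := by
      constructor
      · intro u v huv
        apply Units.ext
        rw [← hm0 u, ← hm0 v, huv]
      · rintro ⟨a, ha⟩
        refine ⟨Units.mk0 (h.act a i) (h.act_ne hi a), ?_⟩
        apply Subtype.ext
        refine h.eq_of_act hi (h.el_mem i _ hi) ha ?_
        exact hm0 _
    let m : h.FFˣ ≃* A := MulEquiv.ofBijective m0 hbij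
    refine ⟨h.FF, inferInstance, e, m, ?_, ?_, ?_, ?_, ?_, ?_⟩
    · apply CharTwo.of_one_ne_zero_of_two_eq_zero one_ne_zero
      rw [← one_add_one_eq_two]
      apply Additive.toMul.injective
      apply Subtype.ext
      exact sq_one hx0
    · intro u
      have h1 := hper _ (m u).2
      have h3 : IsOfFinOrder (m u) := by
        rwa [← Submonoid.isOfFinOrder_coe (H := A.toSubmonoid)]
      have h4 := m.symm.toMonoidHom.isOfFinOrder h3
      rwa [MulEquiv.coe_toMonoidHom, MulEquiv.symm_apply_apply] at h4
    · intro x y hxy
      apply Additive.toMul.injective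
      exact Subtype.ext hxy
    · intro x y
      rfl
    · intro g
      constructor
      · intro hg
        exact ⟨Additive.ofMul ⟨g, hg⟩, rfl⟩
      · rintro ⟨x, rfl⟩
        exact x.toMul.2
    · intro u x
      change (((h.mul i hi (u : h.FF) x).toMul : h.V) : G) = _
      unfold Setting.mul
      rw [if_neg (hu u)]
      rfl
  · intro hfin x hx
    have hVfin : Finite h.V := by
      have : Set.Finite {x : G | x * x = 1} := by
        refine (hfin.union (Set.finite_singleton (1 : G))).subset ?_
        intro y hy
        by_cases h1 : y = 1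
        · exact Or.inr h1
        · exact Or.inl (order_two hy h1)
      exact this.to_subtype
    have hn : h.V.Normal := ⟨fun y hy g => by
      change g * y * g⁻¹ * (g * y * g⁻¹) = 1
      have e1 : g * y * g⁻¹ * (g * y * g⁻¹) = g * (y * y) * g⁻¹ := by group
      rw [e1, show y * y = 1 from hy, mul_one, mul_inv_cancel]⟩
    have hP : IsPGroup 2 (ConjAct G) := fun g => h2 (ConjAct.ofConjAct g)
    have hd : 2 ∣ Nat.card h.V := by
      have h3 : orderOf (⟨x, sq_one hx⟩ : h.V) = 2 := by
        rw [← hx]
        exact (Subgroup.orderOf_coe (⟨x, sq_one hx⟩ : h.V)).symm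
      rw [← h3]
      exact orderOf_dvd_natCard _
    obtain ⟨b, hb, hb1⟩ := hP.exists_fixed_point_of_prime_dvd_card_of_fixed_point h.V hd
      (a := 1) (by
        intro g
        exact smul_one g)
    have hbg : ∀ g : G, g * b * g⁻¹ = b := by
      intro g
      exact congrArg Subtype.val (hb (ConjAct.toConjAct g))
    have hb2 : (b : G) ≠ 1 := fun h0 => hb1 (Subtype.ext h0.symm)
    obtain ⟨α, hα, rfl⟩ := htr (b : G) x (order_two b.2 hb2) hx
    rw [Subgroup.mem_center_iff]
    intro g
    have h4 := hbg (α⁻¹ g)
    have h5 := congrArg α h4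
    rw [map_mul, map_mul, map_inv, MulAut.apply_inv_self] at h5
    exact mul_inv_eq_iff_eq_mul.1 h5

end Pool.Agent.Results.MP_5bec91_al.CommutingInvolutions
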