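import Pool.Agent.H61.RL.Ext

set_option autoImplicit false

/-!
# 2-groups of exponent eight with a commutative group of automorphisms transitive on the involutions

Let `G` be a group with `g ^ 8 = 1` for all `g` and `A` a commutative group of automorphisms of `G` which is
transitive on the involutions of `G`. Then `G` is locally finite: the involutions commute (`commute_inv`), with `1`
they form an elementary abelian normal subgroup `V`, `G / V` has exponent dividing `4`, so it is locally finite by
Sanov's theorem, which is proved in `Pool.Agent.H61.RL.Sanov`.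
-/

namespace Pool.Agent.Results.MP_5bec91_al.ExponentEight

open Pool.Agent.H61.RL

theorem result (G : Type) [Group G] (h8 : ∀ g : G, g ^ 8 = 1) (A : Subgroup (MulAut G))
    (hA : ∀ a ∈ A, ∀ b ∈ A, a * b = b * a)
    (htr : ∀ x y : G, orderOf x = 2 → orderOf y = 2 → ∃ a ∈ A, a x = y) :
    ∀ H : Subgroup G, H.FG → Finite H := by
  apply finite_of_eight _ h8
  intro x y hx hy
  by_cases h1 : x = 1
  · rw [h1, one_mul, mul_one]
  by_cases h2 : y = 1
  · rw [h2, one_mul, mul_one]
  exact (commute_inv (fun x y _ _ => ⟨3, by norm_num [h8]⟩) hA htr (order_two hx h1)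
    (order_two hy h2)).eq

end Pool.Agent.Results.MP_5bec91_al.ExponentEight
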